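import Pool.Agent.H104R3.EG.Stmts2

set_option autoImplicit false

namespace Pool.Agent.H22R3.EG

open Pool.Agent.H104R3.EG

variable {G : Type} [Group G]

theorem mem_cj (g : G) (T : Subgroup G) (x : G) : x ∈ cj g T ↔ g⁻¹ * x * g ∈ T := by
  unfold cj
  rw [Subgroup.mem_map]
  constructor
  · rintro ⟨y, hy, rfl⟩
    simpa [mul_assoc] using hy
  · intro h
    exact ⟨_, h, by simp [mul_assoc]⟩

theorem cj_one (T : Subgroup G) : cj 1 T = T := by
  ext x; rw [mem_cj]; simp

theorem cj_mul (a b : G) (T : Subgroup G) : cj (a * b) T = cj a (cj b T) := by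
  ext x; rw [mem_cj, mem_cj, mem_cj]; simp [mul_assoc]

theorem cj_mono (g : G) {S T : Subgroup G} (h : S ≤ T) : cj g S ≤ cj g T := by
  intro x hx
  rw [mem_cj] at hx ⊢
  exact h hx

theorem cj_inv_cj (g : G) (T : Subgroup G) : cj g⁻¹ (cj g T) = T := by
  rw [← cj_mul]; simp [cj_one]

theorem cj_cj_inv (g : G) (T : Subgroup G) : cj g (cj g⁻¹ T) = T := by
  rw [← cj_mul]; simp [cj_one]

theorem cj_bot_iff (g : G) (T : Subgroup G) : cj g T = ⊥ ↔ T = ⊥ := by
  have hb : ∀ h : G, cj h (⊥ : Subgroup G) = ⊥ := by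
    intro h
    ext x; rw [mem_cj]
    simp only [Subgroup.mem_bot]
    constructor
    · intro hx
      have : x = h * (h⁻¹ * x * h) * h⁻¹ := by group
      rw [this, hx]; simp
    · rintro rfl; simp
  constructor
  · intro h
    rw [← cj_inv_cj g T, h, hb]
  · rintro rfl; exact hb g

/-- the class of candidate subgroups -/
def Cl (X T : Subgroup G) : Prop := T ≤ X ∧ T ≠ ⊥ ∧ ∀ x ∈ X, cj x T = T

theorem cj_normal (X : Subgroup G) (hX : X.Normal) (g : G) : cj g X = X := by
  ext x
  rw [mem_cj]
  constructor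
  · intro h
    have := hX.conj_mem _ h g
    simpa [mul_assoc] using this
  · intro h
    have := hX.conj_mem _ h g⁻¹
    simpa [mul_assoc] using this

theorem Cl.cj {X T : Subgroup G} (hX : X.Normal) (h : Cl X T) (g : G) : Cl X (cj g T) := by
  refine ⟨?_, ?_, ?_⟩
  · rw [← cj_normal X hX g]; exact cj_mono g h.1
  · rw [Ne, cj_bot_iff]; exact h.2.1
  · intro x hx
    have h1 : x * g = g * (g⁻¹ * x * g) := by group
    rw [← cj_mul, h1, cj_mul, h.2.2]
    have := hX.conj_mem _ hx g⁻¹
    simpa [mul_assoc] using this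

/-- minimality -/
def Mn (X T : Subgroup G) : Prop := Cl X T ∧ ∀ S, Cl X S → S ≤ T → S = T

theorem Mn.cj {X T : Subgroup G} (hX : X.Normal) (h : Mn X T) (g : G) : Mn X (cj g T) := by
  refine ⟨h.1.cj hX g, fun S hS hle => ?_⟩
  have h1 := h.2 (Pool.Agent.H104R3.EG.cj g⁻¹ S) (hS.cj hX g⁻¹) (by
    rw [← cj_inv_cj g T]; exact cj_mono _ hle)
  rw [← h1, cj_cj_inv]

theorem Mn.inf {X A B : Subgroup G} (hA : Mn X A) (hB : Mn X B) (hne : A ≠ B) : A ⊓ B = ⊥ := by
  by_contra h
  have hC : Cl X (A ⊓ B) := by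
    refine ⟨inf_le_left.trans hA.1.1, h, fun x hx => ?_⟩
    have h1 := hA.1.2.2 x hx
    have h2 := hB.1.2.2 x hx
    ext y
    rw [mem_cj]
    constructor
    · intro hy
      refine ⟨?_, ?_⟩
      · have : y ∈ Pool.Agent.H104R3.EG.cj x A := by rw [mem_cj]; exact hy.1
        rw [h1] at this; exact this
      · have : y ∈ Pool.Agent.H104R3.EG.cj x B := by rw [mem_cj]; exact hy.2
        rw [h2] at this; exact this
    · intro hy
      refine ⟨?_, ?_⟩
      · have : y ∈ Pool.Agent.H104R3.EG.cj x A := by rw [h1]; exact hy.1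
        rw [mem_cj] at this; exact this
      · have : y ∈ Pool.Agent.H104R3.EG.cj x B := by rw [h2]; exact hy.2
        rw [mem_cj] at this; exact this
  have h1 := hA.2 _ hC inf_le_left
  have h2 := hB.2 _ hC inf_le_right
  exact hne (h1.symm.trans h2)

theorem Mn.comm {X A B : Subgroup G} (hA : Mn X A) (hB : Mn X B) (hne : A ≠ B) :
    ∀ x ∈ A, ∀ y ∈ B, x * y = y * x := by
  intro x hx y hy
  have hxX := hA.1.1 hx
  have hyX := hB.1.1 hy
  have h1 : x * y * x⁻¹ * y⁻¹ ∈ A ⊓ B := by
    refine ⟨?_, ?_⟩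
    · have h2 : y * x⁻¹ * y⁻¹ ∈ A := by
        have h3 := hA.1.2.2 y hyX
        rw [← h3, mem_cj]
        have : y⁻¹ * (y * x⁻¹ * y⁻¹) * y = x⁻¹ := by group
        rw [this]; exact A.inv_mem hx
      have h4 : x * y * x⁻¹ * y⁻¹ = x * (y * x⁻¹ * y⁻¹) := by group
      rw [h4]; exact A.mul_mem hx h2
    · have h2 : x * y * x⁻¹ ∈ B := by
        have h3 := hB.1.2.2 x hxX
        rw [← h3, mem_cj]
        have : x⁻¹ * (x * y * x⁻¹) * x = y := by group
        rw [this]; exact hy
      exact B.mul_mem h2 (B.inv_mem hy)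
  rw [hA.inf hB hne, Subgroup.mem_bot] at h1
  have h5 : x * y = (x * y * x⁻¹ * y⁻¹) * (y * x) := by group
  rw [h5, h1, one_mul]

theorem decR : DecR := by
  classical
  intro G _ _ X hX hna
  obtain ⟨hXn, hXb, hXm⟩ := hX
  -- minimal element
  obtain ⟨T0, hT0⟩ : ∃ T0 : Subgroup G, Mn X T0 := by
    have hne : {T : Subgroup G | Cl X T}.Nonempty :=
      ⟨X, le_rfl, hXb, fun x _ => cj_normal X hXn x⟩
    obtain ⟨m, hm⟩ := (Set.toFinite {T : Subgroup G | Cl X T}).exists_minimal hne
    exact ⟨m, hm.1, fun S hS hle => le_antisymm hle (hm.2 hS hle)⟩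
  have hMn : ∀ h, Mn X (cj h T0) := fun h => hT0.cj hXn h
  -- enumeration
  let C : Set (Subgroup G) := Set.range (fun h : G => cj h T0)
  have : Fintype C := Fintype.ofFinite C
  let e : Fin (Fintype.card C) ≃ C := (Fintype.equivFin C).symm
  let T : Fin (Fintype.card C) → Subgroup G := fun i => (e i : Subgroup G)
  have hTex : ∀ i, ∃ h : G, cj h T0 = T i := fun i => (e i).2
  choose g' hg' using hTex
  let g : Fin (Fintype.card C) → G := fun i => if T i = T0 then 1 else g' i
  have hg : ∀ i, T i = cj (g i) T0 := by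
    intro i
    by_cases h : T i = T0
    · simp only [g, if_pos h]; rw [cj_one, h]
    · simp only [g, if_neg h]; exact (hg' i).symm
  have hinj : Function.Injective T := fun i j h => e.injective (Subtype.ext h)
  have hmem : ∀ h : G, ∃ i, T i = cj h T0 := by
    intro h
    exact ⟨e.symm ⟨cj h T0, ⟨h, rfl⟩⟩, by simp [T]⟩
  have hTM : ∀ i, Mn X (T i) := fun i => by rw [hg i]; exact hMn _
  have hcomm : ∀ i j, i ≠ j → ∀ x ∈ T i, ∀ y ∈ T j, x * y = y * x := fun i j hij =>
    (hTM i).comm (hTM j) (fun h => hij (hinj h))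
  have hperm : ∀ h i, ∃ j, cj h (T i) = T j := by
    intro h i
    obtain ⟨j, hj⟩ := hmem (h * g i)
    exact ⟨j, by rw [hj, cj_mul, ← hg i]⟩
  obtain ⟨i0, hi0⟩ := hmem 1
  rw [cj_one] at hi0
  have hsup : (⨆ i, T i) = X := by
    have hle : ∀ h : G, cj h (⨆ i, T i) ≤ ⨆ i, T i := by
      intro h
      unfold cj
      rw [Subgroup.map_iSup]
      refine iSup_le fun i => ?_
      obtain ⟨j, hj⟩ := hperm h i
      have : Subgroup.map (MulAut.conj h).toMonoidHom (T i) = T j := hj
      rw [this]
      exact le_iSup T j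
    have hN : (⨆ i, T i).Normal := by
      refine ⟨fun x hx h => hle h ?_⟩
      rw [mem_cj]
      have : h⁻¹ * (h * x * h⁻¹) * h = x := by group
      rw [this]; exact hx
    have hleX : (⨆ i, T i) ≤ X := iSup_le fun i => (hTM i).1.1
    rcases hXm (⨆ i, T i) hN hleX with h | h
    · exfalso
      have : T i0 ≤ ⨆ i, T i := le_iSup T i0
      rw [h, le_bot_iff] at this
      exact (hTM i0).1.2.1 this
    · exact h
  refine ⟨Fintype.card C, T, g, T0, ?_, ?_, hg, hcomm, hsup, hperm, i0, ?_⟩
  · -- simple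
    have hnt : Nontrivial T0 := by
      rw [Subgroup.nontrivial_iff_ne_bot]; exact hT0.1.2.1
    refine { eq_bot_or_eq_top_of_normal := fun S hS => ?_ }
    by_cases hSb : S = ⊥
    · exact Or.inl hSb
    right
    let S' : Subgroup G := S.map T0.subtype
    have hS'le : S' ≤ T0 := Subgroup.map_subtype_le S
    have hnorm : X ≤ Subgroup.normalizer (S' : Set G) := by
      rw [← hsup]
      refine iSup_le fun i => ?_
      by_cases hi : i = i0
      · rw [hi, hi0]
        intro t ht
        rw [Subgroup.mem_normalizer_iff]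
        intro y
        constructor
        · rintro ⟨s, hs, rfl⟩
          exact ⟨⟨t, ht⟩ * s * ⟨t, ht⟩⁻¹, hS.conj_mem s hs _, rfl⟩
        · rintro ⟨s, hs, hs2⟩
          refine ⟨⟨t, ht⟩⁻¹ * s * ⟨t, ht⟩, ?_, ?_⟩
          · have := hS.conj_mem s hs (⟨t, ht⟩⁻¹)
            rwa [inv_inv] at this
          · have h3 : (T0.subtype s : G) = t * y * t⁻¹ := hs2
            have h4 : T0.subtype (⟨t, ht⟩⁻¹ * s * ⟨t, ht⟩) = t⁻¹ * (T0.subtype s) * t := rfl
            rw [h4, h3]; group
      · intro t ht
        rw [Subgroup.mem_normalizer_iff]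
        intro y
        have hc : ∀ s ∈ T0, t * s = s * t := fun s hs =>
          hcomm i i0 hi t ht s (by rw [hi0]; exact hs)
        constructor
        · intro hy
          have := hc y (hS'le hy)
          rw [this, mul_assoc, mul_inv_cancel, mul_one]; exact hy
        · intro hy
          have h1 := hc _ (hS'le hy)
          have h2 : y = t * y * t⁻¹ := by
            have h3 : t * (t * y * t⁻¹) = t * y := by rw [h1]; group
            exact (mul_left_cancel h3).symm
          rw [h2]; exact hy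
    have hCl : Cl X S' := by
      refine ⟨hS'le.trans hT0.1.1, ?_, fun x hx => ?_⟩
      · intro h
        apply hSb
        rw [Subgroup.map_eq_bot_iff_of_injective S T0.subtype_injective] at h
        exact h
      · have h1 := hnorm hx
        ext y
        rw [mem_cj]
        have h2 := (Subgroup.mem_normalizer_iff.mp ((Subgroup.normalizer (S' : Set G)).inv_mem h1)) y
        rw [inv_inv] at h2
        exact h2.symm
    have h2 := hT0.2 S' hCl hS'le
    rw [eq_top_iff]
    intro x _
    have hx : (x : G) ∈ S' := by rw [h2]; exact x.2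
    obtain ⟨s, hs, hsx⟩ := hx
    have : s = x := Subtype.ext hsx
    rw [← this]; exact hs
  · -- nonabelian
    by_contra hab
    unfold NonAb at hab
    push Not at hab
    have hTab : ∀ i, ∀ x ∈ T i, ∀ y ∈ T i, x * y = y * x := by
      intro i x hx y hy
      rw [hg i, mem_cj] at hx hy
      have h1 := hab _ hx _ hy
      have h2 : x * y = g i * (((g i)⁻¹ * x * g i) * ((g i)⁻¹ * y * g i)) * (g i)⁻¹ := by group
      rw [h2, h1]; group
    have hall : ∀ i j, ∀ x ∈ T i, ∀ y ∈ T j, x * y = y * x := by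
      intro i j
      by_cases hij : i = j
      · rw [hij]; exact hTab j
      · exact hcomm i j hij
    have h1 : ∀ j, X ≤ Subgroup.centralizer (T j : Set G) := by
      intro j
      rw [← hsup]
      refine iSup_le fun i x hx => ?_
      rw [Subgroup.mem_centralizer_iff]
      intro y hy
      exact (hall i j x hx y hy).symm
    have h2 : X ≤ Subgroup.centralizer (X : Set G) := by
      intro x hx
      have h3 : X ≤ Subgroup.centralizer ({x} : Set G) := by
        rw [← hsup]
        refine iSup_le fun j y hy => ?_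
        rw [Subgroup.mem_centralizer_iff]
        intro z hz
        rw [Set.mem_singleton_iff] at hz
        subst hz
        have := (Subgroup.mem_centralizer_iff.mp (h1 j hx)) y hy
        exact this.symm
      rw [Subgroup.mem_centralizer_iff]
      intro y hy
      have := (Subgroup.mem_centralizer_iff.mp (h3 hy)) x rfl
      exact this.symm
    obtain ⟨x, hx, y, hy, hxy⟩ := hna
    apply hxy
    exact (Subgroup.mem_centralizer_iff.mp (h2 hy)) x hx
  · simp only [g, if_pos hi0]

end Pool.Agent.H22R3.EG
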